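import Pool.Agent.L0h56.KA.Main

/-!
# The kicked uniform Anderson model in the plane has no absolutely continuous spectrum

`ω_x`, `x ∈ ℤ²`, are independent and uniform on `[-c, c]`, `c > 0` arbitrary, and `V` is any real
background potential. The potential `V + ω` of the Anderson model acts as a kick of period
`τ = kπ/c`, `k = 1, 2, ...`, that is as `τ (V + ω) ∑ₙ δ(t - nτ)`, whose time average is `V + ω`.
Between the kicks the particle moves by a unitary operator `S` of finite range with `S(x, y) =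
S(y, x)` (time reversal invariance); there is no smallness condition on `S`. The operator of one
period is `U = e^{-iτ(V + ω)} S`. The theorem says that `U` has almost surely purely singular
spectrum, for all `c > 0`, `k ≥ 1`, `V` and `S`. The second part is the case that `S` is the Strang
splitting with `m` steps of the free evolution `e^{iτΔ}` into the evolutions of its four families of
disjoint bonds, `Δ` the lattice Laplacian of the Anderson model.

Idea. Put an absorbing lead at a site `a` and let `F_B(z)` be the amplitude of return to `a` when the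
potentials in the finite set `B` are revealed and those outside are averaged out. Averaging over
`ω_x` replaces the phase `e^{-iτω_x}` by `0`, an absorbing site, so `F_B` is a martingale in `B` and
`1 - |F_B|²` is the probability of absorption at the sites outside `B`. Revealing `y` changes `F_B`
by at least `|z| |φ_B(y)|² / 2`, where `φ_B(y)` is the amplitude of absorption at `y`: this uses the
symmetry of `S` (it is the coherent backscattering). By Bessel's inequality the increments over a
shell of radius `r` add up in the square to at least `const (∑ |φ|²)² / r`, and the flux through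
every shell is the probability of escape. As `∑ 1 / r = ∞`, this probability is zero.
-/

set_option autoImplicit false

open scoped BigOperators
open MeasureTheory

namespace Pool.Agent.Results.MP_562b47_mp.KickedPlaneSingular

/-- the uniform law on `[-c, c]` -/
noncomputable def unif (c : ℝ) : Measure ℝ :=
  ENNReal.ofReal (1 / (2 * c)) • volume.restrict (Set.Icc (-c) c)

/-- square summable functions -/
def SqSummable (u : (Fin 2 → ℤ) → ℂ) : Prop := Summable fun x => ‖u x‖ ^ 2

/-- `S` is a unitary operator of range at most `L` with `S(x, y) = S(y, x)`, where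
`S(x, y) = (S δ_y)(x)`: the value of `S u` at `x` depends only on the values of `u` at the sites `y`
with `|y_i - x_i| ≤ L`, and the vectors `S δ_x` are orthonormal -/
structure SymmetricUnitary (L : ℕ) (S : ((Fin 2 → ℤ) → ℂ) →ₗ[ℂ] ((Fin 2 → ℤ) → ℂ)) : Prop where
  range : ∀ (u : (Fin 2 → ℤ) → ℂ) (x : Fin 2 → ℤ),
    (∀ y : Fin 2 → ℤ, (∀ i, |y i - x i| ≤ L) → u y = 0) → S u x = 0
  symm : ∀ x y : Fin 2 → ℤ, S (Pi.single y 1) x = S (Pi.single x 1) y
  orthonormal : ∀ x y : Fin 2 → ℤ,
    ∑' z, (starRingEnd ℂ) (S (Pi.single x 1) z) * S (Pi.single y 1) z = if x = y then 1 else 0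

/-- the operator of one period, `u ↦ e^{-iτV} S u` -/
noncomputable def period (S : ((Fin 2 → ℤ) → ℂ) →ₗ[ℂ] ((Fin 2 → ℤ) → ℂ)) (τ : ℝ)
    (V : (Fin 2 → ℤ) → ℝ) (u : (Fin 2 → ℤ) → ℂ) (x : Fin 2 → ℤ) : ℂ :=
  Complex.exp (-(τ * V x * Complex.I)) * S u x

/-- `μ`, a finite measure carried by `[-π, π]`, is the spectral measure of the unitary operator `A`
with respect to the vector `g`: `∫ e^{inθ} dμ(θ) = ⟨g, Aⁿ g⟩` for `n = 0, 1, 2, ...` -/
def IsSpectralMeasure (A : ((Fin 2 → ℤ) → ℂ) → (Fin 2 → ℤ) → ℂ) (g : (Fin 2 → ℤ) → ℂ)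
    (μ : Measure ℝ) : Prop :=
  IsFiniteMeasure μ ∧ μ (Set.Icc (-Real.pi) Real.pi)ᶜ = 0 ∧
    ∀ n : ℕ, ∫ θ : ℝ, Complex.exp (n * θ * Complex.I) ∂μ = ∑' x, (starRingEnd ℂ) (g x) * A^[n] g x

/-- purely singular spectrum: every vector has a spectral measure, and it is singular with respect
to Lebesgue measure -/
def PurelySingular (A : ((Fin 2 → ℤ) → ℂ) → (Fin 2 → ℤ) → ℂ) : Prop :=
  ∀ g : (Fin 2 → ℤ) → ℂ, SqSummable g → (∃ μ : Measure ℝ, IsSpectralMeasure A g μ) ∧
    ∀ μ : Measure ℝ, IsSpectralMeasure A g μ → μ ⟂ₘ volume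

/-- For almost all `ω`, `ω_x` iid uniform on `[-c, c]`, the operator of one period with potential
`V + ω`, period `τ` and free evolution `S` has purely singular spectrum. -/
def AlmostSurelySingular (c τ : ℝ) (S : ((Fin 2 → ℤ) → ℂ) →ₗ[ℂ] ((Fin 2 → ℤ) → ℂ))
    (V : (Fin 2 → ℤ) → ℝ) : Prop :=
  ∀ᵐ ω ∂(Measure.infinitePi fun _ : Fin 2 → ℤ => unif c),
    PurelySingular (period S τ fun x => V x + ω x)

/-- the partner of `x` in the family `(i, σ)` of disjoint bonds: the bonds of direction `i` whose
lower end has `i`-th coordinate congruent to `σ` modulo `2` -/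
def partner (i : Fin 2) (σ : ℤ) (x : Fin 2 → ℤ) : Fin 2 → ℤ :=
  if x i % 2 = σ then x + Pi.single i 1 else x - Pi.single i 1

/-- the evolution `e^{-it(1 - P)}` of the bonds of one family, `(P u)(x) = u (partner x)`;
as `P² = 1` it is `(1 + e^{-2it})/2 + (1 - e^{-2it})/2 P` -/
noncomputable def bond (i : Fin 2) (σ : ℤ) (t : ℝ) :
    ((Fin 2 → ℤ) → ℂ) →ₗ[ℂ] ((Fin 2 → ℤ) → ℂ) where
  toFun u x := (1 + Complex.exp (-(2 * t * Complex.I))) / 2 * u x +
    (1 - Complex.exp (-(2 * t * Complex.I))) / 2 * u (partner i σ x)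
  map_add' u v := by
    funext x
    simp only [Pi.add_apply]
    ring
  map_smul' a u := by
    funext x
    simp only [Pi.smul_apply, smul_eq_mul, RingHom.id_apply]
    ring

/-- the Laplacian is the sum over the four families:
`∑_{i, σ} (1 - P_{i, σ}) u = -∑_{|n| = 1} (u(· + n) - u)` -/
theorem laplacian_eq (u : (Fin 2 → ℤ) → ℂ) (x : Fin 2 → ℤ) :
    ∑ i : Fin 2, ((u x - u (partner i 0 x)) + (u x - u (partner i 1 x))) =
      -∑ i : Fin 2, ((u (x + Pi.single i 1) - u x) + (u (x - Pi.single i 1) - u x)) := by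
  rw [← Finset.sum_neg_distrib]
  refine Finset.sum_congr rfl fun i _ => ?_
  unfold partner
  rcases Int.emod_two_eq_zero_or_one (x i) with h | h
  · rw [h]; simp; ring
  · rw [h]; simp

/-- one step of length `t` of the Strang splitting of the free evolution `e^{itΔ}` -/
noncomputable def strang (t : ℝ) : ((Fin 2 → ℤ) → ℂ) →ₗ[ℂ] ((Fin 2 → ℤ) → ℂ) :=
  bond 0 0 (t / 2) * bond 0 1 (t / 2) * bond 1 0 (t / 2) * bond 1 1 t * bond 1 0 (t / 2) *
    bond 0 1 (t / 2) * bond 0 0 (t / 2)

/-- **Theorem.** Let `c > 0`, `k ≥ 1` and `τ = kπ/c`, and let `V` be any real potential on `ℤ²`.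
(1) For every unitary `S` of finite range with `S(x, y) = S(y, x)`, the operator
`e^{-iτ(V + ω)} S` has almost surely purely singular spectrum.
(2) In particular this is so for the `m`-step Strang splitting `S` of `e^{iτΔ}`, for all `m ≥ 1`. -/
theorem result (c : ℝ) (hc : 0 < c) (k : ℕ) (hk : 0 < k) (V : (Fin 2 → ℤ) → ℝ) :
    (∀ (L : ℕ) (S : ((Fin 2 → ℤ) → ℂ) →ₗ[ℂ] ((Fin 2 → ℤ) → ℂ)), SymmetricUnitary L S →
      AlmostSurelySingular c (k * Real.pi / c) S V) ∧
    ∀ m : ℕ, 0 < m →
      AlmostSurelySingular c (k * Real.pi / c) (strang (k * Real.pi / c / m) ^ m) V := by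
  have h1 : ∀ (L : ℕ) (S : ((Fin 2 → ℤ) → ℂ) →ₗ[ℂ] ((Fin 2 → ℤ) → ℂ)), SymmetricUnitary L S →
      AlmostSurelySingular c (k * Real.pi / c) S V := by
    intro L S hS
    have hS' : Pool.Agent.L0h56.KA.Hop L S := ⟨hS.range, hS.symm, hS.orthonormal⟩
    have h := Pool.Agent.L0h56.KA.main hc hk hS' V
    unfold AlmostSurelySingular
    change ∀ᵐ ω ∂(Pool.Agent.L0h56.KA.PP (Pool.Agent.L0h56.CS.unif c) (Fin 2 → ℤ)), _
    filter_upwards [h] with ω hω g hg
    exact hω g hg
  refine ⟨h1, fun m _ => ?_⟩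
  have h2 := Pool.Agent.L0h56.KA.strang_hop (k * Real.pi / c / m) m
  exact h1 (7 * m) _ ⟨h2.range, h2.symm, h2.unit⟩

end Pool.Agent.Results.MP_562b47_mp.KickedPlaneSingular
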