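import Pool.Agent.L0h56.CS.Pr
import Pool.Agent.L0h56.CS.Ex
import Pool.Agent.L0h56.CS.Dv

/-!
# Two dimensions: arbitrarily weak Cauchy noise removes all absolutely continuous spectrum

`ω_j` are independent and uniform on `[-c, c]`, `c > 0` arbitrary, and `ξ_j` are independent standard
Cauchy variables, independent of `ω`. For every `c > 0` and every real background potential `W`, the
operator `-Δ + W + ω + γ ξ` on `ℓ²(ℤ²)` has almost surely purely singular spectrum as soon as
`γ_x ≥ m_r` on the double layers `‖x‖_∞ ∈ {2r, 2r+1}`, for some `m_r ∈ [0, 1]` with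
`∑ m_r² / (r + 1) = ∞`. In particular this is so for the noise `ε ξ_x / √(log (3 + ‖x‖_∞))`, which
tends to zero at infinity in probability, and for the noise `ε ξ_x` put only at the sites for which
`⌊‖x‖_∞ / 2⌋` is a prime number, a set of sites of density zero, for every `ε > 0`.

Idea. Attach a lead to the site `a` and let `R_B` be the reflection amplitude at the complex energy
`E + iη` when the Cauchy variables in the finite set `B` are revealed and those outside are averaged
out. The average over a Cauchy variable replaces `γ_x ξ_x` by `-i γ_x` (an absorbing site), so that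
`1 - |R_B|²` is the probability of absorption and `R_B` is a martingale in `B`. Revealing the site
`y` changes `R_B` by at least `γ_y |G_B(y, a)|²`, because the matrix is symmetric (time reversal
invariance). The increments over the sites of a double layer add up in the square, by Bessel's
inequality, and the flux through a double layer is bounded by the absorption on it; so each double
layer costs at least `const m_r² φ² / (r + 1)`, where `φ` is the transmission probability to
infinity, and the sum of the costs is at most one. Hence `φ = 0`.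
-/

set_option autoImplicit false

open scoped BigOperators ENNReal
open MeasureTheory

namespace Pool.Agent.Results.MP_562b47_mp.PlaneWeakCauchyNoise

/-- the uniform law on `[-c, c]` -/
noncomputable def unif (c : ℝ) : Measure ℝ :=
  ENNReal.ofReal (1 / (2 * c)) • volume.restrict (Set.Icc (-c) c)

/-- `(H_V u)(j) = -∑_{|n|=1} (u(j+n) - u(j)) + V_j u(j)` -/
noncomputable def H (V : (Fin 2 → ℤ) → ℝ) (u : (Fin 2 → ℤ) → ℂ) (j : Fin 2 → ℤ) : ℂ :=
  -∑ i : Fin 2, ((u (j + Pi.single i 1) - u j) + (u (j - Pi.single i 1) - u j)) + (V j : ℂ) * u j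

/-- square summable functions -/
def SqSummable (u : (Fin 2 → ℤ) → ℂ) : Prop := Summable fun x => ‖u x‖ ^ 2

/-- `μ` is the spectral measure of `H_V` with respect to the vector `g`: a finite measure whose
Borel transform `∫ (t - z)⁻¹ dμ(t)` is `⟨g, (H_V - z)⁻¹ g⟩` for all non-real `z` -/
def IsSpectralMeasure (V : (Fin 2 → ℤ) → ℝ) (g : (Fin 2 → ℤ) → ℂ) (μ : Measure ℝ) : Prop :=
  IsFiniteMeasure μ ∧ ∀ z : ℂ, z.im ≠ 0 → ∃ u : (Fin 2 → ℤ) → ℂ, SqSummable u ∧
    (∀ x, H V u x - z * u x = g x) ∧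
    ∫ t : ℝ, ((t : ℂ) - z)⁻¹ ∂μ = ∑' x, (starRingEnd ℂ) (g x) * u x

/-- purely singular spectrum: every vector has a spectral measure, and it is singular with respect
to Lebesgue measure -/
def PurelySingular (V : (Fin 2 → ℤ) → ℝ) : Prop :=
  ∀ g : (Fin 2 → ℤ) → ℂ, SqSummable g → (∃ μ : Measure ℝ, IsSpectralMeasure V g μ) ∧
    ∀ μ : Measure ℝ, IsSpectralMeasure V g μ → μ ⟂ₘ volume

/-- the norm `‖x‖_∞` -/
def nrm (x : Fin 2 → ℤ) : ℕ := max (x 0).natAbs (x 1).natAbs

/-- For almost all `(ω, ξ)`, `ω_j` iid uniform on `[-c, c]` and `ξ_j` iid standard Cauchy, independent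
of `ω`, the spectrum of `-Δ + W + ω + γ ξ` is purely singular. -/
def AlmostSurelySingular (c : ℝ) (W γ : (Fin 2 → ℤ) → ℝ) : Prop :=
  ∀ᵐ z ∂((Measure.infinitePi fun _ : Fin 2 → ℤ => unif c).prod
      (Measure.infinitePi fun _ : Fin 2 → ℤ => ProbabilityTheory.cauchyMeasure 0 1)),
    PurelySingular fun x => W x + z.1 x + γ x * z.2 x

/-- **Theorem.** Let `c > 0` and let `W` be any real potential on `ℤ²`.
(1) If `γ ≥ 0` and `γ_x ≥ m_r` for `‖x‖_∞ ∈ {2r, 2r+1}`, where `0 ≤ m_r ≤ 1` and
`∑ m_r² / (r + 1) = ∞`, then `-Δ + W + ω + γ ξ` has almost surely purely singular spectrum.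
(2) This is so for `γ_x = ε / √(log (3 + ‖x‖_∞))`, for all `ε > 0`.
(3) This is so if `γ_x = ε` when `⌊‖x‖_∞ / 2⌋` is prime and `γ_x = 0` otherwise, for all `ε > 0`. -/
theorem result (c : ℝ) (hc : 0 < c) (W : (Fin 2 → ℤ) → ℝ) :
    (∀ (γ : (Fin 2 → ℤ) → ℝ) (m : ℕ → ℝ), (∀ x, 0 ≤ γ x) → (∀ r, 0 ≤ m r ∧ m r ≤ 1) →
      (∀ x r, (nrm x = 2 * r ∨ nrm x = 2 * r + 1) → m r ≤ γ x) →
      (¬ Summable fun r : ℕ => m r ^ 2 / (r + 1)) → AlmostSurelySingular c W γ) ∧
    (∀ ε : ℝ, 0 < ε → AlmostSurelySingular c W fun x => ε / Real.sqrt (Real.log (3 + nrm x))) ∧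
    ∀ ε : ℝ, 0 < ε → AlmostSurelySingular c W fun x => if (nrm x / 2).Prime then ε else 0 := by
  have h1 : ∀ (γ : (Fin 2 → ℤ) → ℝ) (m : ℕ → ℝ), (∀ x, 0 ≤ γ x) → (∀ r, 0 ≤ m r ∧ m r ≤ 1) →
      (∀ x r, (nrm x = 2 * r ∨ nrm x = 2 * r + 1) → m r ≤ γ x) →
      (¬ Summable fun r : ℕ => m r ^ 2 / (r + 1)) → AlmostSurelySingular c W γ := by
    intro γ m hγ hm01 hm hdiv
    have h := Pool.Agent.L0h56.CS.as_sing hc W hγ (fun r => (hm01 r).1) (fun r => (hm01 r).2) hm hdiv
    unfold AlmostSurelySingular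
    change ∀ᵐ z ∂((Pool.Agent.L0h56.CS.PU c (Fin 2 → ℤ)).prod (Pool.Agent.L0h56.CS.PC (Fin 2 → ℤ))), _
    filter_upwards [h] with z hz g hg
    refine ⟨?_, fun μ hμ => hz g hg μ hμ⟩
    exact Pool.Agent.L0h56.CS.exists_spm (fun x => W x + z.1 x + γ x * z.2 x) hg
  refine ⟨h1, fun ε hε => ?_, fun ε hε => ?_⟩
  · have hlog : ∀ x : Fin 2 → ℤ, 0 < Real.log (3 + nrm x) := fun x => Real.log_pos (by
      have : (0 : ℝ) ≤ nrm x := Nat.cast_nonneg _
      linarith)
    refine h1 _ (fun r => min 1 (ε / Real.sqrt (Real.log (2 * r + 4)))) (fun x => ?_) (fun r => ?_)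
      (fun x r hx => ?_) (Pool.Agent.L0h56.CS.div_log hε)
    · have := hlog x
      positivity
    · have : 0 < Real.log (2 * r + 4) := Real.log_pos (by
        have : (0 : ℝ) ≤ r := Nat.cast_nonneg _
        linarith)
      exact ⟨le_min zero_le_one (by positivity), min_le_left _ _⟩
    · refine (min_le_right _ _).trans ?_
      have h2 : (nrm x : ℝ) ≤ 2 * r + 1 := by
        have : nrm x ≤ 2 * r + 1 := by omega
        exact_mod_cast this
      have h3 : Real.log (3 + nrm x) ≤ Real.log (2 * r + 4) :=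
        Real.log_le_log (by positivity) (by linarith)
      exact div_le_div_of_nonneg_left hε.le (Real.sqrt_pos.2 (hlog x)) (Real.sqrt_le_sqrt h3)
  · refine h1 _ (fun r => if r.Prime then min 1 ε else 0) (fun x => ?_) (fun r => ?_)
      (fun x r hx => ?_) (Pool.Agent.L0h56.CS.div_prime hε)
    · split_ifs
      · exact hε.le
      · exact le_refl _
    · split_ifs
      · exact ⟨le_min zero_le_one hε.le, min_le_left _ _⟩
      · exact ⟨le_refl _, zero_le_one⟩
    · have h2 : nrm x / 2 = r := by omega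
      rw [h2]
      split_ifs
      · exact min_le_right _ _
      · exact le_refl _

end Pool.Agent.Results.MP_562b47_mp.PlaneWeakCauchyNoise
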