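import Pool.Agent.L0h56.SL.Asm

/-!
# Purely singular spectrum for the uniform Anderson model on graphs of growth less than `4/3`

Let `ω_x` be independent and uniformly distributed on `[-c, c]`, `c > 0`. We prove that for every
`c > 0` the Anderson model has almost surely purely singular spectrum on every graph of bounded
degree whose balls satisfy `|B(a, r)| ≤ C_a (r + 1)^α` with `α < 4/3`; in particular the compression
of the operator `Δ_ω` of the problem to `ℓ²(Γ)` has this property for every set `Γ ⊆ ℤ^d` with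
`|Γ ∩ [-r, r]^d| ≤ C (r + 1)^α`, `α < 4/3`, for instance for the horns
`{x ∈ ℤ² : x₁ ≥ 0, |x₂| ≤ x₁^κ}`, `0 ≤ κ < 1/3`, whose width is unbounded.

Idea. Attach an absorbing lead to a site `a` of a finite piece of the graph; `R` is the amplitude of
reflection of a wave sent in through the lead. For a slab `S` around `a` of `n` sites, of thickness
larger than `√n log n`, let `V_S` be the variance of the conditional expectation of `R` due to the
potentials in `S`. Displace these potentials by `-iL v(ω_x)`, `L = const / √n`, where `v` vanishes at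
the ends of `[-c, c]`: a real displacement of this size changes the law little, so by the two constants
theorem the complex displacement changes the conditional expectation by at most `V_S^{κ/2}` in mean
square, for every `κ < 1`, and by Bessel's inequality on a torus so do its derivatives with respect to
the displacements, which are the squares of the wave function at the sites of `S`, up to averages over
the exterior; these are harmless, since the displaced slab is absorbing and opaque. Hence the total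
absorption in the slab, which is the whole of what is not reflected, is at most `√n V_S^{κ/2}`, and
this contradicts `∑_S V_S ≤ 1` unless the transmission is small, if the slabs have `n ≤ r^{2(α-1)}`
sites and `α < 4/3`.

The modules on the two constants theorem, the change of variables and the martingale were proved by
helper80, those on the level functions, the choice of the slabs and the infinite volume by helper93.
-/

set_option autoImplicit false

open scoped BigOperators
open MeasureTheory

namespace Pool.Agent.Results.MP_562b47_mp.SlowGrowthSingular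

/-- the uniform law on `[-c, c]` -/
noncomputable def unif (c : ℝ) : Measure ℝ :=
  ENNReal.ofReal (1 / (2 * c)) • volume.restrict (Set.Icc (-c) c)

/-- square summable functions -/
def SqSummable {X : Type} (u : X → ℂ) : Prop := Summable fun x => ‖u x‖ ^ 2

/-- `m` is the spectral measure of the operator `A` with respect to the vector `g`: `m` is finite and
for every non-real `z` there is a square summable `u` with `(A - z) u = g` and
`∫ (t - z)⁻¹ dm(t) = ⟨g, u⟩` -/
def IsSpectralMeasure {X : Type} (A : (X → ℂ) → X → ℂ) (g : X → ℂ) (m : Measure ℝ) : Prop :=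
  IsFiniteMeasure m ∧ ∀ z : ℂ, z.im ≠ 0 → ∃ u : X → ℂ, SqSummable u ∧
    (∀ x, A u x - z * u x = g x) ∧
    ∫ t : ℝ, ((t : ℂ) - z)⁻¹ ∂m = ∑' x, (starRingEnd ℂ) (g x) * u x

/-- purely singular spectrum: every vector has a spectral measure, and it is singular with respect
to Lebesgue measure -/
def PurelySingular {X : Type} (A : (X → ℂ) → X → ℂ) : Prop :=
  ∀ g : X → ℂ, SqSummable g → (∃ m : Measure ℝ, IsSpectralMeasure A g m) ∧
    ∀ m : Measure ℝ, IsSpectralMeasure A g m → m ⟂ₘ volume

/-- the operator on the graph `G` with hopping amplitudes `K` and potential `v` -/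
noncomputable def hopping {X : Type} (G : SimpleGraph X) [G.LocallyFinite] (K : X → X → ℝ)
    (v : X → ℝ) (u : X → ℂ) (x : X) : ℂ :=
  ∑ y ∈ G.neighborFinset x, (K x y : ℂ) * u y + (v x : ℂ) * u x

open Classical in
/-- the extension of a function on `Γ` by zero -/
noncomputable def extend {d : ℕ} (Γ : Set (Fin d → ℤ)) (u : Γ → ℂ) (x : Fin d → ℤ) : ℂ :=
  if h : x ∈ Γ then u ⟨x, h⟩ else 0

/-- the operator `u ↦ -∑_{|n| = 1} (u(· + n) - u) + v u` of the problem, with potential `v`, compressed
to the functions on `Γ` -/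
noncomputable def compression {d : ℕ} (Γ : Set (Fin d → ℤ)) (v : Γ → ℝ) (u : Γ → ℂ) (x : Γ) : ℂ :=
  -∑ i : Fin d, ((extend Γ u ((x : Fin d → ℤ) + Pi.single i 1) - u x) +
    (extend Γ u ((x : Fin d → ℤ) - Pi.single i 1) - u x)) + (v x : ℂ) * u x

theorem graph_part (c : ℝ) (hc : 0 < c) (α : ℝ) (hα : α < 4 / 3) (X : Type) [Countable X]
    (G : SimpleGraph X) [G.LocallyFinite] (D : ℕ) (hD : ∀ x, G.degree x ≤ D)
    (hgr : ∀ a : X, ∃ C : ℝ, ∀ (r : ℕ) (F : Finset X),
      (∀ x ∈ F, G.Reachable a x ∧ G.dist a x ≤ r) → (F.card : ℝ) ≤ C * ((r : ℝ) + 1) ^ α)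
    (K : X → X → ℝ) (hK : ∀ x y, K x y = K y x) (hK1 : ∀ x y, |K x y| ≤ 1) (W : X → ℝ) :
    ∀ᵐ ω ∂(Measure.infinitePi fun _ : X => unif c),
      PurelySingular (hopping G K fun x => W x + ω x) := by
  classical
  have h := Pool.Agent.L0h56.SL.A.graph_main G (fun x y => if G.Adj x y then K x y else 0)
    (fun x => G.neighborFinset x)
    (fun x y => by
      by_cases h : G.Adj x y
      · rw [if_pos h, if_pos h.symm, hK]
      · rw [if_neg h, if_neg fun h' => h h'.symm])
    (fun x y => by
      split_ifs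
      · exact hK1 x y
      · simp)
    (fun x y hxy => by
      rw [SimpleGraph.mem_neighborFinset]
      by_contra h
      exact hxy (if_neg h))
    (fun x y hxy => Or.inr (by
      by_contra h
      exact hxy (if_neg h)))
    D (fun x => by rw [SimpleGraph.card_neighborFinset_eq_degree]; exact hD x) α hα hgr c hc W
  change ∀ᵐ ω ∂(Measure.infinitePi fun _ : X => Pool.Agent.L0h56.CS.unif c), _
  filter_upwards [h] with ω hω g hg
  have e : Pool.Agent.L0h56.SL.HK (fun x y => if G.Adj x y then K x y else 0)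
      (fun x => G.neighborFinset x) (fun x => W x + ω x) = hopping G K fun x => W x + ω x := by
    funext u x
    unfold Pool.Agent.L0h56.SL.HK hopping
    congr 1
    refine Finset.sum_congr rfl fun y hy => ?_
    dsimp only
    rw [if_pos ((G.mem_neighborFinset x y).1 hy)]
  rw [e] at hω
  exact hω g hg

/-! ### Subsets of the lattice -/

section

variable {d : ℕ} (Γ : Set (Fin d → ℤ))

/-- nearest neighbours in `Γ` -/
def lattice : SimpleGraph Γ where
  Adj x y := ∃ i : Fin d, (y : Fin d → ℤ) = (x : Fin d → ℤ) + Pi.single i 1 ∨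
    (y : Fin d → ℤ) = (x : Fin d → ℤ) - Pi.single i 1
  symm := ⟨fun x y ⟨i, h⟩ => ⟨i, by
    rcases h with h | h
    · right; rw [h, add_sub_cancel_right]
    · left; rw [h, sub_add_cancel]⟩⟩
  loopless := ⟨fun x ⟨i, h⟩ => by
    rcases h with h | h
    · have := congrFun h i
      rw [Pi.add_apply, Pi.single_eq_same] at this
      omega
    · have := congrFun h i
      rw [Pi.sub_apply, Pi.single_eq_same] at this
      omega⟩

open Classical in
/-- the neighbours in the lattice -/
noncomputable def nbl (x : Fin d → ℤ) : Finset (Fin d → ℤ) :=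
  (Finset.univ.image fun i : Fin d => x + Pi.single i 1) ∪
    (Finset.univ.image fun i : Fin d => x - Pi.single i 1)

theorem card_nbl (x : Fin d → ℤ) : (nbl x).card ≤ 2 * d := by
  classical
  unfold nbl
  refine (Finset.card_union_le _ _).trans ?_
  have h1 := Finset.card_image_le (s := (Finset.univ : Finset (Fin d)))
    (f := fun i : Fin d => x + Pi.single i 1)
  have h2 := Finset.card_image_le (s := (Finset.univ : Finset (Fin d)))
    (f := fun i : Fin d => x - Pi.single i 1)
  rw [Finset.card_univ, Fintype.card_fin] at h1 h2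
  omega

theorem sum_nbl (x : Fin d → ℤ) (f : (Fin d → ℤ) → ℂ) :
    ∑ z ∈ nbl x, f z = ∑ i : Fin d, (f (x + Pi.single i 1) + f (x - Pi.single i 1)) := by
  classical
  unfold nbl
  rw [Finset.sum_union, Finset.sum_image, Finset.sum_image, Finset.sum_add_distrib]
  · intro i _ j _ h
    have h1 := congrFun (sub_right_injective h) i
    by_contra hne
    rw [Pi.single_eq_same, Pi.single_eq_of_ne hne] at h1
    exact one_ne_zero h1
  · intro i _ j _ h
    have h1 := congrFun (add_right_injective x h) i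
    by_contra hne
    rw [Pi.single_eq_same, Pi.single_eq_of_ne hne] at h1
    exact one_ne_zero h1
  · rw [Finset.disjoint_left]
    intro z hz hz'
    rw [Finset.mem_image] at hz hz'
    obtain ⟨i, _, hi⟩ := hz
    obtain ⟨j, _, hj⟩ := hz'
    have h1 := congrFun (hi.trans hj.symm) i
    simp only [Pi.add_apply, Pi.sub_apply, Pi.single_eq_same] at h1
    by_cases hij : i = j
    · subst hij
      rw [Pi.single_eq_same] at h1
      omega
    · rw [Pi.single_eq_of_ne hij] at h1
      omega

theorem dist_bound {a x : Γ} (w : (lattice Γ).Walk a x) (i : Fin d) :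
    |(x : Fin d → ℤ) i - (a : Fin d → ℤ) i| ≤ w.length := by
  induction w with
  | nil => simp
  | @cons u v y h p ih =>
    rw [SimpleGraph.Walk.length_cons]
    have h1 : |(v : Fin d → ℤ) i - (u : Fin d → ℤ) i| ≤ 1 := by
      obtain ⟨j, hj | hj⟩ := h
      · rw [hj, Pi.add_apply, add_sub_cancel_left]
        by_cases hij : i = j
        · subst hij; simp
        · rw [Pi.single_eq_of_ne hij]; simp
      · rw [hj, Pi.sub_apply, sub_sub_cancel_left, abs_neg]
        by_cases hij : i = j
        · subst hij; simp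
        · rw [Pi.single_eq_of_ne hij]; simp
    have h2 : (y : Fin d → ℤ) i - (u : Fin d → ℤ) i =
        ((y : Fin d → ℤ) i - (v : Fin d → ℤ) i) + ((v : Fin d → ℤ) i - (u : Fin d → ℤ) i) := by ring
    rw [h2]
    refine (abs_add_le _ _).trans ?_
    push_cast
    linarith

end

theorem lattice_part (c : ℝ) (hc : 0 < c) (α : ℝ) (hα : α < 4 / 3) (d : ℕ) (Γ : Set (Fin d → ℤ))
    (C : ℝ) (hgr : ∀ (r : ℕ) (F : Finset (Fin d → ℤ)),
      (∀ x ∈ F, x ∈ Γ ∧ ∀ i, |x i| ≤ r) → (F.card : ℝ) ≤ C * ((r : ℝ) + 1) ^ α)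
    (W : Γ → ℝ) :
    ∀ᵐ ω ∂(Measure.infinitePi fun _ : Γ => unif c),
      PurelySingular (compression Γ fun x => W x + ω x) := by
  classical
  have h := Pool.Agent.L0h56.SL.A.graph_main (lattice Γ)
    (fun x y => if (lattice Γ).Adj x y then (-1 : ℝ) else 0)
    (fun x => Finset.subtype (· ∈ Γ) (nbl (x : Fin d → ℤ)))
    (fun x y => by
      by_cases h : (lattice Γ).Adj x y
      · rw [if_pos h, if_pos h.symm]
      · rw [if_neg h, if_neg fun h' => h h'.symm])
    (fun x y => by split_ifs <;> simp)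
    (fun x y hxy => by
      have h : (lattice Γ).Adj x y := by
        by_contra h
        exact hxy (if_neg h)
      rw [Finset.mem_subtype]
      obtain ⟨i, hi | hi⟩ := h
      · rw [hi]
        exact Finset.mem_union_left _ (Finset.mem_image_of_mem _ (Finset.mem_univ i))
      · rw [hi]
        exact Finset.mem_union_right _ (Finset.mem_image_of_mem _ (Finset.mem_univ i)))
    (fun x y hxy => Or.inr (by
      by_contra h
      exact hxy (if_neg h)))
    (2 * d) (fun x => by
      refine le_trans ?_ (card_nbl (x : Fin d → ℤ))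
      rw [Finset.card_subtype]
      exact Finset.card_filter_le _ _) α hα ?_ c hc (fun x => W x + 2 * d)
  · change ∀ᵐ ω ∂(Measure.infinitePi fun _ : Γ => Pool.Agent.L0h56.CS.unif c), _
    filter_upwards [h] with ω hω g hg
    have e : Pool.Agent.L0h56.SL.HK (fun x y => if (lattice Γ).Adj x y then (-1 : ℝ) else 0)
        (fun x => Finset.subtype (· ∈ Γ) (nbl (x : Fin d → ℤ))) (fun x => W x + 2 * d + ω x) =
        compression Γ fun x => W x + ω x := by
      funext u x
      unfold Pool.Agent.L0h56.SL.HK compression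
      have e1 : ∑ y ∈ Finset.subtype (· ∈ Γ) (nbl (x : Fin d → ℤ)),
          (((if (lattice Γ).Adj x y then (-1 : ℝ) else 0 : ℝ)) : ℂ) * u y =
          -∑ y ∈ Finset.subtype (· ∈ Γ) (nbl (x : Fin d → ℤ)), extend Γ u (y : Fin d → ℤ) := by
        rw [← Finset.sum_neg_distrib]
        refine Finset.sum_congr rfl fun y hy => ?_
        rw [Finset.mem_subtype] at hy
        have hadj : (lattice Γ).Adj x y := by
          unfold nbl at hy
          rw [Finset.mem_union, Finset.mem_image, Finset.mem_image] at hy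
          rcases hy with ⟨i, _, hi⟩ | ⟨i, _, hi⟩
          · exact ⟨i, Or.inl hi.symm⟩
          · exact ⟨i, Or.inr hi.symm⟩
        rw [if_pos hadj]
        unfold extend
        rw [dif_pos y.2]
        push_cast
        ring
      have e2 : ∑ y ∈ Finset.subtype (· ∈ Γ) (nbl (x : Fin d → ℤ)), extend Γ u (y : Fin d → ℤ) =
          ∑ z ∈ nbl (x : Fin d → ℤ), extend Γ u z := by
        rw [Finset.sum_subtype_eq_sum_filter]
        refine Finset.sum_filter_of_ne fun z _ hz => ?_
        by_contra hzn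
        exact hz (by unfold extend; rw [dif_neg hzn])
      rw [e1, e2, sum_nbl]
      have e3 : ∀ i : Fin d, (extend Γ u ((x : Fin d → ℤ) + Pi.single i 1) - u x) +
          (extend Γ u ((x : Fin d → ℤ) - Pi.single i 1) - u x) =
          (extend Γ u ((x : Fin d → ℤ) + Pi.single i 1) +
            extend Γ u ((x : Fin d → ℤ) - Pi.single i 1)) - 2 * u x := fun i => by ring
      simp only [e3]
      rw [Finset.sum_sub_distrib, Finset.sum_const, Finset.card_univ, Fintype.card_fin, nsmul_eq_mul]
      push_cast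
      ring
    rw [e] at hω
    exact hω g hg
  · intro a
    set A : ℕ := ∑ i, ((a : Fin d → ℤ) i).natAbs with hA
    refine ⟨|C| * ((A : ℝ) + 1) ^ |α|, fun r F hF => ?_⟩
    have h1 := hgr (r + A) (F.map (Function.Embedding.subtype _)) (fun x hx => by
      rw [Finset.mem_map] at hx
      obtain ⟨y, hy, rfl⟩ := hx
      refine ⟨y.2, fun i => ?_⟩
      obtain ⟨h2, h3⟩ := hF y hy
      obtain ⟨w, hw⟩ := h2.exists_walk_length_eq_dist
      have h4 := dist_bound Γ w i
      rw [hw] at h4
      have h5 : ((a : Fin d → ℤ) i).natAbs ≤ A :=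
        Finset.single_le_sum (f := fun i => ((a : Fin d → ℤ) i).natAbs) (fun _ _ => Nat.zero_le _)
          (Finset.mem_univ i)
      have h6 : |(a : Fin d → ℤ) i| ≤ A := by
        rw [Int.abs_eq_natAbs]
        exact_mod_cast h5
      have h7 : |(y : Fin d → ℤ) i| ≤ |(y : Fin d → ℤ) i - (a : Fin d → ℤ) i| +
          |(a : Fin d → ℤ) i| := by
        have := abs_add_le ((y : Fin d → ℤ) i - (a : Fin d → ℤ) i) ((a : Fin d → ℤ) i)
        rwa [sub_add_cancel] at this
      have h8 : (((lattice Γ).dist a y : ℕ) : ℤ) ≤ r := by exact_mod_cast h3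
      push_cast
      show |(y : Fin d → ℤ) i| ≤ _
      linarith)
    rw [Finset.card_map] at h1
    have hr0 : (0 : ℝ) ≤ r := Nat.cast_nonneg r
    have hA0 : (0 : ℝ) ≤ A := Nat.cast_nonneg A
    have h9 : ((r + A : ℕ) : ℝ) + 1 ≤ ((A : ℝ) + 1) * ((r : ℝ) + 1) := by
      push_cast
      nlinarith
    have h10 : (((r + A : ℕ) : ℝ) + 1) ^ α ≤ ((A : ℝ) + 1) ^ |α| * ((r : ℝ) + 1) ^ α := by
      rcases le_or_gt 0 α with hα0 | hα0
      · rw [abs_of_nonneg hα0, ← Real.mul_rpow (by positivity) (by positivity)]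
        exact Real.rpow_le_rpow (by positivity) h9 hα0
      · have h11 : (((r + A : ℕ) : ℝ) + 1) ^ α ≤ ((r : ℝ) + 1) ^ α := by
          refine Real.rpow_le_rpow_of_nonpos (by positivity) ?_ hα0.le
          push_cast
          linarith
        have h12 : 1 ≤ ((A : ℝ) + 1) ^ |α| := Real.one_le_rpow (by linarith) (abs_nonneg _)
        have h13 : 0 ≤ ((r : ℝ) + 1) ^ α := by positivity
        nlinarith
    have h14 : 0 ≤ (((r + A : ℕ) : ℝ) + 1) ^ α := by positivity
    calc (F.card : ℝ) ≤ C * (((r + A : ℕ) : ℝ) + 1) ^ α := h1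
      _ ≤ |C| * (((r + A : ℕ) : ℝ) + 1) ^ α := mul_le_mul_of_nonneg_right (le_abs_self C) h14
      _ ≤ |C| * (((A : ℝ) + 1) ^ |α| * ((r : ℝ) + 1) ^ α) :=
          mul_le_mul_of_nonneg_left h10 (abs_nonneg _)
      _ = _ := by ring

/-- the horn `{x : x₀ ≥ 0, |x_i| ≤ x₀^κ for i = 1, ..., d}` in `ℤ^{d+1}` -/
def horn (d : ℕ) (κ : ℝ) : Set (Fin (d + 1) → ℤ) :=
  {x | 0 ≤ x 0 ∧ ∀ i : Fin d, |(x i.succ : ℝ)| ≤ (x 0 : ℝ) ^ κ}

theorem horn_growth (d : ℕ) (κ : ℝ) (hκ : 0 ≤ κ) (r : ℕ) (F : Finset (Fin (d + 1) → ℤ))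
    (hF : ∀ x ∈ F, x ∈ horn d κ ∧ ∀ i, |x i| ≤ r) :
    (F.card : ℝ) ≤ 3 ^ d * ((r : ℝ) + 1) ^ (1 + d * κ) := by
  classical
  set M : ℕ := ⌊((r : ℝ) + 1) ^ κ⌋₊ with hM
  have hr0 : (0 : ℝ) ≤ r := Nat.cast_nonneg r
  have hM1 : (M : ℝ) ≤ ((r : ℝ) + 1) ^ κ := Nat.floor_le (by positivity)
  set T : Fin (d + 1) → Finset ℤ := Fin.cons (Finset.Icc (0 : ℤ) r) fun _ : Fin d =>
    Finset.Icc (-(M : ℤ)) M with hT
  have hsub : F ⊆ Fintype.piFinset T := by
    intro x hx
    obtain ⟨⟨h0, h1⟩, h2⟩ := hF x hx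
    rw [Fintype.mem_piFinset]
    intro j
    refine Fin.cases ?_ (fun i => ?_) j
    · rw [hT, Fin.cons_zero, Finset.mem_Icc]
      exact ⟨h0, (abs_le.1 (h2 0)).2⟩
    · rw [hT, Fin.cons_succ, Finset.mem_Icc, ← abs_le]
      have h3 := h1 i
      have h4 : (x 0 : ℝ) ≤ (r : ℝ) + 1 := by
        have : (x 0 : ℤ) ≤ r := (abs_le.1 (h2 0)).2
        have : (x 0 : ℝ) ≤ r := by exact_mod_cast this
        linarith
      have h5 : (x 0 : ℝ) ^ κ ≤ ((r : ℝ) + 1) ^ κ := Real.rpow_le_rpow (by exact_mod_cast h0) h4 hκ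
      have h6 : (((x i.succ).natAbs : ℕ) : ℝ) ≤ ((r : ℝ) + 1) ^ κ := by
        rw [Nat.cast_natAbs, Int.cast_abs]
        exact h3.trans h5
      have h7 : (x i.succ).natAbs ≤ M := Nat.le_floor h6
      rw [Int.abs_eq_natAbs]
      exact_mod_cast h7
  have hcard : F.card ≤ (r + 1) * (2 * M + 1) ^ d := by
    refine (Finset.card_le_card hsub).trans (le_of_eq ?_)
    rw [Fintype.card_piFinset, Fin.prod_univ_succ]
    simp only [hT, Fin.cons_zero, Fin.cons_succ, Int.card_Icc, Finset.prod_const, Finset.card_univ,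
      Fintype.card_fin]
    have e1 : ((r : ℤ) + 1 - 0).toNat = r + 1 := by omega
    have e2 : ((M : ℤ) + 1 - -(M : ℤ)).toNat = 2 * M + 1 := by omega
    rw [e1, e2]
  have hp1 : (1 : ℝ) ≤ ((r : ℝ) + 1) ^ κ := Real.one_le_rpow (by linarith) hκ
  calc (F.card : ℝ) ≤ ((r : ℝ) + 1) * (2 * M + 1) ^ d := by exact_mod_cast hcard
    _ ≤ ((r : ℝ) + 1) * (3 * ((r : ℝ) + 1) ^ κ) ^ d := by
        refine mul_le_mul_of_nonneg_left (pow_le_pow_left₀ (by positivity) ?_ d) (by positivity)
        linarith
    _ = 3 ^ d * ((r : ℝ) + 1) ^ (1 + d * κ) := by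
        rw [Real.rpow_add (by positivity), Real.rpow_one, mul_pow, mul_comm (d : ℝ) κ, Real.rpow_mul
          (by positivity), Real.rpow_natCast]
        ring

/-- **Theorem.** Let `c > 0` and let `ω_x` be independent and uniformly distributed on `[-c, c]`.
(1) Let `G` be a countable graph of degree at most `D` such that for every vertex `a` the balls
satisfy `|B(a, r)| ≤ C_a (r + 1)^α` with `α < 4/3`. Then for all real symmetric hopping amplitudes
`|K(x, y)| ≤ 1` and every real background potential `W`, the operator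
`(H u)(x) = ∑_{y ∼ x} K(x, y) u(y) + (W(x) + ω_x) u(x)` has almost surely purely singular spectrum.
(2) Let `Γ ⊆ ℤ^d` satisfy `|Γ ∩ [-r, r]^d| ≤ C (r + 1)^α` with `α < 4/3`. Then for every `W` the
compression of `-Δ + W + ω` to `ℓ²(Γ)` has almost surely purely singular spectrum.
(3) In particular this is so for the horn `{x ∈ ℤ^{d+1} : x₀ ≥ 0, |x_i| ≤ x₀^κ}` if `0 ≤ κ` and
`d κ < 1/3`. -/
theorem result (c : ℝ) (hc : 0 < c) (α : ℝ) (hα : α < 4 / 3) :
    (∀ (X : Type) [Countable X] (G : SimpleGraph X) [G.LocallyFinite] (D : ℕ),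
      (∀ x, G.degree x ≤ D) →
      (∀ a : X, ∃ C : ℝ, ∀ (r : ℕ) (F : Finset X),
        (∀ x ∈ F, G.Reachable a x ∧ G.dist a x ≤ r) → (F.card : ℝ) ≤ C * ((r : ℝ) + 1) ^ α) →
      ∀ K : X → X → ℝ, (∀ x y, K x y = K y x) → (∀ x y, |K x y| ≤ 1) → ∀ W : X → ℝ,
      ∀ᵐ ω ∂(Measure.infinitePi fun _ : X => unif c),
        PurelySingular (hopping G K fun x => W x + ω x)) ∧
    (∀ (d : ℕ) (Γ : Set (Fin d → ℤ)),
      (∃ C : ℝ, ∀ (r : ℕ) (F : Finset (Fin d → ℤ)),
        (∀ x ∈ F, x ∈ Γ ∧ ∀ i, |x i| ≤ r) → (F.card : ℝ) ≤ C * ((r : ℝ) + 1) ^ α) →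
      ∀ W : Γ → ℝ, ∀ᵐ ω ∂(Measure.infinitePi fun _ : Γ => unif c),
        PurelySingular (compression Γ fun x => W x + ω x)) ∧
    ∀ (d : ℕ) (κ : ℝ), 0 ≤ κ → d * κ < 1 / 3 → ∀ W : horn d κ → ℝ,
      ∀ᵐ ω ∂(Measure.infinitePi fun _ : horn d κ => unif c),
        PurelySingular (compression (horn d κ) fun x => W x + ω x) := by
  refine ⟨?_, ?_, ?_⟩
  · intro X _ G _ D hD hgr K hK hK1 W
    exact graph_part c hc α hα X G D hD hgr K hK hK1 W
  · intro d Γ ⟨C, hC⟩ W
    exact lattice_part c hc α hα d Γ C hC W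
  · intro d κ hκ hdκ W
    exact lattice_part c hc (1 + d * κ) (by linarith) (d + 1) (horn d κ) (3 ^ d)
      (fun r F hF => horn_growth d κ hκ r F hF) W

end Pool.Agent.Results.MP_562b47_mp.SlowGrowthSingular
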