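import Pool.Agent.L0h56.ST.Main
import Pool.Agent.L0h56.ST.All
import Pool.Agent.L0h56.ST.Trans
import Pool.Agent.L0h56.ST.Cmp
import Pool.Agent.L0h56.ST.Fm
import Pool.Agent.L0h56.ST.FV
import Pool.Agent.L0h56.ST.Bgk
import Pool.Agent.L0h56.ST.Dec
import Pool.Agent.L0h56.SL.Perc
import Pool.Agent.L0h56.SL.Sum

/-!
# Localization on strips and on regions of slowly growing width

Let `ω_x` be independent and uniformly distributed on `[-c, c]`, `c > 0`. We prove that for every
`c > 0` the compression of the operator `Δ_ω` of the problem to `ℓ²(Γ)` has almost surely pure point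
spectrum, and that all its polynomially bounded generalised eigenfunctions `ψ` decay,
`|ψ(x)| ≤ K exp (-(min (c, 1) / W)^64 |x₀|^(1 - 64 β) / C)`, `C = C(d)`, for every set
`Γ ⊆ ℤ^{d+1}` whose sections `{x ∈ Γ : x₀ = t}` have at most `W (1 + |t|)^β` points, `0 ≤ β < 1/64`.
For `β = 0` these are strips of width `W` (of arbitrary shape): the localization length is at most
`C (W / min (c, 1))^64`, at all energies, where only bounds exponential in `W` were known. For `β > 0`
the width is unbounded and grows like a power.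

Idea. Attach absorbing leads to two sites `a`, `b` of a finite piece of the strip at distance `L`. By
the slab inequality of `SlowGrowthSingular` (the mean transmission out of a slab of `n` sites is at most
`C √n V^{κ/2}`, `V` the variance of the reflection amplitude due to the slab, and the variances of
disjoint slabs sum up to at most one), now with slabs of `2 W l` sites at all the `L / l` places between
`a` and `b`, the transmission probability between `a` and `b` is at most `L^{-1/4}` if
`L ≥ C (W / c)^50`. Schur's formula for the two sites removes the leads: the Green function has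
`E |G(a, b)|^{1/4} ≤ C L^{-1/32}`. For `L` of order `(W / c)^64` this is so small that the fractional
moments of the Green function decay exponentially beyond that scale; energy variation and the
Borel-Cantelli lemma then give the decay of the generalised eigenfunctions, and the expansion in
generalised eigenfunctions gives pure point spectrum.

The modules on the transmission probability, on Schur's formula (`Trans`, `Cmp`), on the iteration of
fractional moments, on the decay of generalised eigenfunctions (`Fm`, `Dec`), and on the eigenfunction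
expansion (`Bgk`) were proved by helper90, helper71 and helper80; they use the library `H4R2.LO` of
localization for large disorder.
-/

set_option autoImplicit false

open scoped BigOperators
open MeasureTheory

namespace Pool.Agent.Results.MP_562b47_mp.StripLocalization

/-- the uniform law on `[-c, c]` -/
noncomputable def unif (c : ℝ) : Measure ℝ :=
  ENNReal.ofReal (1 / (2 * c)) • volume.restrict (Set.Icc (-c) c)

/-- square summable functions -/
def SqSummable {X : Type} (u : X → ℂ) : Prop := Summable fun x => ‖u x‖ ^ 2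

/-- `m` is the spectral measure of the operator `A` with respect to the vector `g`: `m` is finite and
for every non-real `z` there is a square summable `u` with `(A - z) u = g` and
`∫ (t - z)⁻¹ dm(t) = ⟨g, u⟩` -/
def IsSpectralMeasure {X : Type} (A : (X → ℂ) → X → ℂ) (g : X → ℂ) (m : Measure ℝ) : Prop :=
  IsFiniteMeasure m ∧ ∀ z : ℂ, z.im ≠ 0 → ∃ u : X → ℂ, SqSummable u ∧
    (∀ x, A u x - z * u x = g x) ∧
    ∫ t : ℝ, ((t : ℂ) - z)⁻¹ ∂m = ∑' x, (starRingEnd ℂ) (g x) * u x

/-- `E` is an eigenvalue of `A`: there is a square summable eigenfunction -/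
def IsEigenvalue {X : Type} (A : (X → ℂ) → X → ℂ) (E : ℝ) : Prop :=
  ∃ ψ : X → ℂ, ψ ≠ 0 ∧ SqSummable ψ ∧ ∀ x, A ψ x = (E : ℂ) * ψ x

/-- pure point spectrum: the set of the eigenvalues is countable, every vector has a spectral measure,
and the spectral measures are carried by the set of the eigenvalues -/
def PurePoint {X : Type} (A : (X → ℂ) → X → ℂ) : Prop :=
  {E : ℝ | IsEigenvalue A E}.Countable ∧
    ∀ g : X → ℂ, SqSummable g → (∃ m : Measure ℝ, IsSpectralMeasure A g m) ∧
      ∀ m : Measure ℝ, IsSpectralMeasure A g m → m {E : ℝ | ¬ IsEigenvalue A E} = 0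

open Classical in
/-- the extension of a function on `Γ` by zero -/
noncomputable def extend {d : ℕ} (Γ : Set (Fin d → ℤ)) (u : Γ → ℂ) (x : Fin d → ℤ) : ℂ :=
  if h : x ∈ Γ then u ⟨x, h⟩ else 0

/-- the operator `u ↦ -∑_{|n| = 1} (u(· + n) - u) + v u` of the problem, with potential `v`, compressed
to the functions on `Γ` -/
noncomputable def compression {d : ℕ} (Γ : Set (Fin d → ℤ)) (v : Γ → ℝ) (u : Γ → ℂ) (x : Γ) : ℂ :=
  -∑ i : Fin d, ((extend Γ u ((x : Fin d → ℤ) + Pi.single i 1) - u x) +
    (extend Γ u ((x : Fin d → ℤ) - Pi.single i 1) - u x)) + (v x : ℂ) * u x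

/-! ### Subsets of the lattice -/

section

variable {d : ℕ} (Γ : Set (Fin d → ℤ))

/-- nearest neighbours -/
def near (x y : Fin d → ℤ) : Prop := ∃ i : Fin d, y = x + Pi.single i 1 ∨ y = x - Pi.single i 1

theorem near_symm {x y : Fin d → ℤ} (h : near x y) : near y x := by
  obtain ⟨i, h | h⟩ := h
  · exact ⟨i, Or.inr (by rw [h, add_sub_cancel_right])⟩
  · exact ⟨i, Or.inl (by rw [h, sub_add_cancel])⟩

theorem near_irr {x : Fin d → ℤ} (h : near x x) : False := by
  obtain ⟨i, h | h⟩ := h
  · have := congrFun h i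
    rw [Pi.add_apply, Pi.single_eq_same] at this
    omega
  · have := congrFun h i
    rw [Pi.sub_apply, Pi.single_eq_same] at this
    omega

theorem near_coord {x y : Fin d → ℤ} (h : near x y) (j : Fin d) : |x j - y j| ≤ 1 := by
  obtain ⟨i, h | h⟩ := h
  · rw [h, Pi.add_apply, sub_add_cancel_left, abs_neg]
    by_cases hij : j = i
    · subst hij; simp
    · rw [Pi.single_eq_of_ne hij]; simp
  · rw [h, Pi.sub_apply, sub_sub_cancel]
    by_cases hij : j = i
    · subst hij; simp
    · rw [Pi.single_eq_of_ne hij]; simp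

open Classical in
/-- the neighbours in the lattice -/
noncomputable def nbl (x : Fin d → ℤ) : Finset (Fin d → ℤ) :=
  (Finset.univ.image fun i : Fin d => x + Pi.single i 1) ∪
    (Finset.univ.image fun i : Fin d => x - Pi.single i 1)

theorem mem_nbl {x y : Fin d → ℤ} : y ∈ nbl x ↔ near x y := by
  classical
  unfold nbl near
  rw [Finset.mem_union, Finset.mem_image, Finset.mem_image]
  constructor
  · rintro (⟨i, _, hi⟩ | ⟨i, _, hi⟩)
    · exact ⟨i, Or.inl hi.symm⟩
    · exact ⟨i, Or.inr hi.symm⟩
  · rintro ⟨i, hi | hi⟩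
    · exact Or.inl ⟨i, Finset.mem_univ _, hi.symm⟩
    · exact Or.inr ⟨i, Finset.mem_univ _, hi.symm⟩

theorem card_nbl (x : Fin d → ℤ) : (nbl x).card ≤ 2 * d := by
  classical
  unfold nbl
  refine (Finset.card_union_le _ _).trans ?_
  have h1 := Finset.card_image_le (s := (Finset.univ : Finset (Fin d)))
    (f := fun i : Fin d => x + Pi.single i 1)
  have h2 := Finset.card_image_le (s := (Finset.univ : Finset (Fin d)))
    (f := fun i : Fin d => x - Pi.single i 1)
  rw [Finset.card_univ, Fintype.card_fin] at h1 h2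
  omega

theorem sum_nbl (x : Fin d → ℤ) (f : (Fin d → ℤ) → ℂ) :
    ∑ z ∈ nbl x, f z = ∑ i : Fin d, (f (x + Pi.single i 1) + f (x - Pi.single i 1)) := by
  classical
  unfold nbl
  rw [Finset.sum_union, Finset.sum_image, Finset.sum_image, Finset.sum_add_distrib]
  · intro i _ j _ h
    have h1 := congrFun (sub_right_injective h) i
    by_contra hne
    rw [Pi.single_eq_same, Pi.single_eq_of_ne hne] at h1
    exact one_ne_zero h1
  · intro i _ j _ h
    have h1 := congrFun (add_right_injective x h) i
    by_contra hne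
    rw [Pi.single_eq_same, Pi.single_eq_of_ne hne] at h1
    exact one_ne_zero h1
  · rw [Finset.disjoint_left]
    intro z hz hz'
    rw [Finset.mem_image] at hz hz'
    obtain ⟨i, _, hi⟩ := hz
    obtain ⟨j, _, hj⟩ := hz'
    have h1 := congrFun (hi.trans hj.symm) i
    simp only [Pi.add_apply, Pi.sub_apply, Pi.single_eq_same] at h1
    by_cases hij : i = j
    · subst hij
      rw [Pi.single_eq_same] at h1
      omega
    · rw [Pi.single_eq_of_ne hij] at h1
      omega

open Classical in
/-- the hopping amplitudes -/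
noncomputable def amp (x y : Γ) : ℝ := if near (x : Fin d → ℤ) y then -1 else 0

open Classical in
/-- the neighbours in `Γ` -/
noncomputable def nbG (x : Γ) : Finset Γ := Finset.subtype (· ∈ Γ) (nbl (x : Fin d → ℤ))

theorem mem_nbG {x y : Γ} : y ∈ nbG Γ x ↔ near (x : Fin d → ℤ) y := by
  classical
  unfold nbG
  rw [Finset.mem_subtype, mem_nbl]

theorem amp_near {x y : Γ} (h : amp Γ x y ≠ 0) : near (x : Fin d → ℤ) y := by
  classical
  by_contra hn
  exact h (if_neg hn)

theorem op_eq [DecidableEq Γ] (ω : Γ → ℝ) :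
    Pool.Agent.L0h56.SL.HK (amp Γ) (nbG Γ) (fun x => 2 * d + ω x) = compression Γ ω := by
  classical
  funext u x
  unfold Pool.Agent.L0h56.SL.HK compression
  have e1 : ∑ y ∈ nbG Γ x, ((amp Γ x y : ℝ) : ℂ) * u y =
      -∑ y ∈ nbG Γ x, extend Γ u (y : Fin d → ℤ) := by
    rw [← Finset.sum_neg_distrib]
    refine Finset.sum_congr rfl fun y hy => ?_
    have hadj : near (x : Fin d → ℤ) y := (mem_nbG Γ).1 hy
    unfold amp
    rw [if_pos hadj]
    unfold extend
    rw [dif_pos y.2]
    push_cast
    ring
  have e2 : ∑ y ∈ nbG Γ x, extend Γ u (y : Fin d → ℤ) =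
      ∑ z ∈ nbl (x : Fin d → ℤ), extend Γ u z := by
    unfold nbG
    rw [Finset.sum_subtype_eq_sum_filter]
    refine Finset.sum_filter_of_ne fun z _ hz => ?_
    by_contra hzn
    exact hz (by unfold extend; rw [dif_neg hzn])
  rw [e1, e2, sum_nbl]
  have e3 : ∀ i : Fin d, (extend Γ u ((x : Fin d → ℤ) + Pi.single i 1) - u x) +
      (extend Γ u ((x : Fin d → ℤ) - Pi.single i 1) - u x) =
      (extend Γ u ((x : Fin d → ℤ) + Pi.single i 1) +
        extend Γ u ((x : Fin d → ℤ) - Pi.single i 1)) - 2 * u x := fun i => by ring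
  simp only [e3]
  rw [Finset.sum_sub_distrib, Finset.sum_const, Finset.card_univ, Fintype.card_fin, nsmul_eq_mul]
  push_cast
  ring

end

theorem result (d : ℕ) : ∃ C : ℝ, 1 ≤ C ∧
    ∀ (Γ : Set (Fin (d + 1) → ℤ)) (W β : ℝ), 1 ≤ W → 0 ≤ β → β < 1 / 64 →
    (∀ t : ℤ, ∃ F : Finset (Fin (d + 1) → ℤ), (∀ x ∈ Γ, x 0 = t → x ∈ F) ∧
      (F.card : ℝ) ≤ W * (1 + |(t : ℝ)|) ^ β) →
    ∀ c : ℝ, 0 < c → ∀ᵐ ω ∂(Measure.infinitePi fun _ : Γ => unif c),
      PurePoint (compression Γ ω) ∧
      ∀ (E : ℝ) (ψ : Γ → ℂ), (∀ x, compression Γ ω ψ x = (E : ℂ) * ψ x) →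
        (∃ (K : ℝ) (k : ℕ), ∀ x : Γ, ‖ψ x‖ ≤ K * (1 + |((x : Fin (d + 1) → ℤ) 0 : ℝ)|) ^ k) →
        ∃ K : ℝ, ∀ x : Γ, ‖ψ x‖ ≤ K * Real.exp (-((min c 1 / W) ^ 64 / C *
          |((x : Fin (d + 1) → ℤ) 0 : ℝ)| ^ (1 - 64 * β))) := by
  classical
  obtain ⟨C, hC, H⟩ := Pool.Agent.L0h56.ST.Main.main (Pool.Agent.L0h56.ST.FV.stFV
    (Pool.Agent.L0h56.ST.stTrans Pool.Agent.L0h56.ST.env_all Pool.Agent.L0h56.ST.slab_all
      Pool.Agent.L0h56.SL.stPerc Pool.Agent.L0h56.SL.stSum) Pool.Agent.L0h56.ST.stCmp
      Pool.Agent.L0h56.ST.stFm) Pool.Agent.L0h56.ST.stDec Pool.Agent.L0h56.ST.stBgk (2 * (d + 1)) (by omega)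
  refine ⟨C, hC, ?_⟩
  intro Γ W β hW hβ0 hβ hsec c hc
  choose F hF hFc using hsec
  have h := H Γ (amp Γ) (nbG Γ) (fun x y => by
      unfold amp
      by_cases h : near (x : Fin (d + 1) → ℤ) y
      · rw [if_pos h, if_pos (near_symm h)]
      · rw [if_neg h, if_neg fun h' => h (near_symm h')])
    (fun x y h => (mem_nbG Γ).2 (amp_near Γ h))
    (fun x => by
      unfold amp
      exact if_neg fun h => near_irr h)
    (fun x y => by
      unfold amp
      split_ifs <;> simp)
    (fun x => by
      refine le_trans ?_ (card_nbl (x : Fin (d + 1) → ℤ))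
      unfold nbG
      rw [Finset.card_subtype]
      exact Finset.card_filter_le _ _)
    (fun x => (x : Fin (d + 1) → ℤ) 0)
    (fun t => (Finset.subtype (· ∈ Γ) (F t)).filter fun x : Γ => (x : Fin (d + 1) → ℤ) 0 = t)
    (fun t x => by
      rw [Finset.mem_filter, Finset.mem_subtype]
      exact ⟨fun h => h.2, fun h => ⟨hF t x x.2 h, h⟩⟩)
    (fun x y h => near_coord (amp_near Γ h) 0) W β hW hβ0 hβ
    (fun t => by
      refine le_trans ?_ (hFc t)
      have h1 : ((Finset.subtype (· ∈ Γ) (F t)).filter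
          fun x : Γ => (x : Fin (d + 1) → ℤ) 0 = t).card ≤ (F t).card := by
        refine (Finset.card_filter_le _ _).trans ?_
        rw [Finset.card_subtype]
        exact Finset.card_filter_le _ _
      exact_mod_cast h1) c hc (2 * ((d + 1 : ℕ) : ℝ))
  change ∀ᵐ ω ∂(Measure.infinitePi fun _ : Γ => Pool.Agent.L0h56.CS.unif c), _
  filter_upwards [h] with ω hω
  rw [op_eq Γ ω] at hω
  exact ⟨⟨hω.2.1, fun g hg => hω.2.2 g hg⟩, fun E ψ hE hψ => hω.1 E ψ hψ hE⟩

end Pool.Agent.Results.MP_562b47_mp.StripLocalization
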